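import Mathlib

set_option autoImplicit false

open Set Complex MeasureTheory Filter Topology

namespace Pool.Agent.H8.Hyp

section
variable {X : Type*} [NormedAddCommGroup X] [NormedSpace ℝ X]

/-- `u_x(s) = Φ(T_s x)`, extended by a constant to negative `s` -/
noncomputable def uu (T : ℝ → X →L[ℝ] X) (Φ : X →L[ℝ] ℂ) (x : X) (s : ℝ) : ℂ := Φ (T (max s 0) x)

variable (T : ℝ → X →L[ℝ] X) (Φ : X →L[ℝ] ℂ)

theorem uu_cont (hc : ∀ x, ContinuousOn (fun t => T t x) (Ici 0)) (x : X) : Continuous (uu T Φ x) := by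
  unfold uu
  refine Φ.continuous.comp ?_
  exact (hc x).comp_continuous (by fun_prop : Continuous fun s : ℝ => max s 0) fun s => mem_Ici.2 (le_max_right _ _)

theorem uu_add (x y : X) (s : ℝ) : uu T Φ (x + y) s = uu T Φ x s + uu T Φ y s := by
  unfold uu; rw [map_add, map_add]

theorem uu_smul (c : ℝ) (x : X) (s : ℝ) : uu T Φ (c • x) s = c • uu T Φ x s := by
  unfold uu; rw [map_smul, map_smul]

theorem uu_shift (hadd : ∀ s t, 0 ≤ s → 0 ≤ t → ∀ x, T (s + t) x = T s (T t x)) (x : X) (r s : ℝ)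
    (hr : 0 ≤ r) (hs : 0 ≤ s) : uu T Φ (T r x) s = uu T Φ x (s + r) := by
  unfold uu
  rw [max_eq_left hs, max_eq_left (by linarith), hadd s r hs hr]

theorem exists_bound [CompleteSpace X] (hc : ∀ x, ContinuousOn (fun t => T t x) (Ici 0)) (a : ℝ) :
    ∃ M : ℝ, 0 ≤ M ∧ ∀ s ∈ Icc (0 : ℝ) a, ∀ x, ‖uu T Φ x s‖ ≤ M * ‖x‖ := by
  obtain ⟨C, hC⟩ := banach_steinhaus (g := fun s : Icc (0 : ℝ) a => T s) (by
    intro x
    obtain ⟨C, hC⟩ := isCompact_Icc.exists_bound_of_continuousOn ((hc x).mono (fun y (hy : y ∈ Icc (0 : ℝ) a) => hy.1))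
    exact ⟨C, fun s => hC s s.2⟩)
  refine ⟨‖Φ‖ * max C 0, by positivity, fun s hs x => ?_⟩
  unfold uu
  rw [max_eq_left hs.1]
  calc ‖Φ (T s x)‖ ≤ ‖Φ‖ * ‖T s x‖ := Φ.le_opNorm _
    _ ≤ ‖Φ‖ * (‖T s‖ * ‖x‖) := by gcongr; exact (T s).le_opNorm x
    _ ≤ ‖Φ‖ * (max C 0 * ‖x‖) := by
        gcongr
        exact (hC ⟨s, hs⟩).trans (le_max_left _ _)
    _ = _ := by ring

/-- the kernel estimate -/
theorem int_bound (t : ℝ) (ht : 0 ≤ t) (M : ℝ)
    (hM : ∀ s ∈ Icc (0 : ℝ) t, ∀ x, ‖uu T Φ x s‖ ≤ M * ‖x‖) (k : ℝ → ℂ) (K : ℝ)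
    (hk : ∀ s ∈ Icc (0 : ℝ) t, ‖k s‖ ≤ K) (x : X) :
    ‖∫ s in (0 : ℝ)..t, k s * uu T Φ x s‖ ≤ K * M * t * ‖x‖ := by
  have h := intervalIntegral.norm_integral_le_of_norm_le_const (a := 0) (b := t) (C := K * (M * ‖x‖))
    (f := fun s => k s * uu T Φ x s) (by
      intro s hs
      rw [uIoc_of_le ht] at hs
      have hs' : s ∈ Icc (0 : ℝ) t := ⟨hs.1.le, hs.2⟩
      rw [norm_mul]
      exact mul_le_mul (hk s hs') (hM s hs' x) (norm_nonneg _) ((norm_nonneg _).trans (hk s hs')))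
  refine h.trans (le_of_eq ?_)
  rw [sub_zero, abs_of_nonneg ht]; ring

/-- `B_t(λ) x = ∫_0^t k(s) u_x(s) ds` as a functional -/
noncomputable def Bk (hc : ∀ x, ContinuousOn (fun t => T t x) (Ici 0)) (t : ℝ) (k : C(ℝ, ℂ)) : X →ₗ[ℝ] ℂ where
  toFun x := ∫ s in (0 : ℝ)..t, k s * uu T Φ x s
  map_add' x y := by
    rw [← intervalIntegral.integral_add]
    · refine intervalIntegral.integral_congr fun s _ => ?_
      simp only [uu_add]; ring
    · exact (k.continuous.mul (uu_cont T Φ hc x)).intervalIntegrable _ _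
    · exact (k.continuous.mul (uu_cont T Φ hc y)).intervalIntegrable _ _
  map_smul' c x := by
    rw [RingHom.id_apply, ← intervalIntegral.integral_smul]
    refine intervalIntegral.integral_congr fun s _ => ?_
    simp only [uu_smul, mul_smul_comm]

theorem Bk_bound [CompleteSpace X] (hc : ∀ x, ContinuousOn (fun t => T t x) (Ici 0)) (t : ℝ) (ht : 0 ≤ t)
    (k : C(ℝ, ℂ)) : ∃ C : ℝ, ∀ x, ‖Bk T Φ hc t k x‖ ≤ C * ‖x‖ := by
  obtain ⟨M, hM0, hM⟩ := exists_bound T Φ hc t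
  obtain ⟨K, hK⟩ := isCompact_Icc.exists_bound_of_continuousOn (k.continuous.continuousOn (s := Icc 0 t))
  exact ⟨K * M * t, fun x => int_bound T Φ t ht M hM k K hK x⟩

/-- kernel `e^{λ(t-s)}` -/
noncomputable def ker (t : ℝ) (l : ℂ) : C(ℝ, ℂ) := ⟨fun s => exp (l * ((t - s : ℝ) : ℂ)), by fun_prop⟩

/-- kernel `(t-s) e^{λ(t-s)}` -/
noncomputable def ker' (t : ℝ) (l : ℂ) : C(ℝ, ℂ) :=
  ⟨fun s => ((t - s : ℝ) : ℂ) * exp (l * ((t - s : ℝ) : ℂ)), by fun_prop⟩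

variable [CompleteSpace X] (hc : ∀ x, ContinuousOn (fun t => T t x) (Ici 0))

open Classical in
/-- continuous version -/
noncomputable def BB (t : ℝ) (k : C(ℝ, ℂ)) : X →L[ℝ] ℂ :=
  if ht : 0 ≤ t then (Bk T Φ hc t k).mkContinuousOfExistsBound (Bk_bound T Φ hc t ht k) else 0

theorem BB_apply (t : ℝ) (ht : 0 ≤ t) (k : C(ℝ, ℂ)) (x : X) :
    BB T Φ hc t k x = ∫ s in (0 : ℝ)..t, k s * uu T Φ x s := by
  unfold BB; rw [dif_pos ht]; rfl

theorem BB_norm_le (t : ℝ) (ht : 0 ≤ t) (M : ℝ) (hM0 : 0 ≤ M) (hM : ∀ s ∈ Icc (0 : ℝ) t, ∀ x, ‖uu T Φ x s‖ ≤ M * ‖x‖)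
    (k : C(ℝ, ℂ)) (K : ℝ) (hK0 : 0 ≤ K) (hk : ∀ s ∈ Icc (0 : ℝ) t, ‖k s‖ ≤ K) : ‖BB T Φ hc t k‖ ≤ K * M * t := by
  refine ContinuousLinearMap.opNorm_le_bound _ (by positivity) fun x => ?_
  rw [BB_apply T Φ hc t ht]
  exact int_bound T Φ t ht M hM k K hk x

theorem BB_hasDeriv (t : ℝ) (ht : 0 ≤ t) (l : ℂ) :
    HasDerivAt (fun l => BB T Φ hc t (ker t l)) (BB T Φ hc t (ker' t l)) l := by
  obtain ⟨M, hM0, hM⟩ := exists_bound T Φ hc t
  rw [hasDerivAt_iff_isLittleO]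
  -- quadratic bound
  have hq : ∀ m : ℂ, ‖m - l‖ * t ≤ 1 →
      ‖BB T Φ hc t (ker t m) - BB T Φ hc t (ker t l) - (m - l) • BB T Φ hc t (ker' t l)‖ ≤
        (Real.exp (‖l‖ * t) * t ^ 2 * M * t) * ‖m - l‖ ^ 2 := by
    intro m hm
    refine ContinuousLinearMap.opNorm_le_bound _ (by positivity) fun x => ?_
    have e1 : (BB T Φ hc t (ker t m) - BB T Φ hc t (ker t l) - (m - l) • BB T Φ hc t (ker' t l)) x =
        ∫ s in (0 : ℝ)..t, ((ker t m s - ker t l s - (m - l) * ker' t l s)) * uu T Φ x s := by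
      have i1 : ∀ k : C(ℝ, ℂ), IntervalIntegrable (fun s => k s * uu T Φ x s) volume 0 t := fun k =>
        (k.continuous.mul (uu_cont T Φ hc x)).intervalIntegrable _ _
      show BB T Φ hc t (ker t m) x - BB T Φ hc t (ker t l) x - (m - l) * BB T Φ hc t (ker' t l) x = _
      rw [BB_apply T Φ hc t ht, BB_apply T Φ hc t ht, BB_apply T Φ hc t ht, ← intervalIntegral.integral_const_mul,
        ← intervalIntegral.integral_sub (i1 _) (i1 _), ← intervalIntegral.integral_sub ((i1 _).sub (i1 _)) ((i1 _).const_mul _)]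
      refine intervalIntegral.integral_congr fun s _ => ?_
      ring
    rw [e1]
    have h2 := int_bound T Φ t ht M hM (fun s => ker t m s - ker t l s - (m - l) * ker' t l s)
      (Real.exp (‖l‖ * t) * t ^ 2 * ‖m - l‖ ^ 2) (by
        intro s hs
        have hv0 : 0 ≤ t - s := by linarith [hs.2]
        have hvt : t - s ≤ t := by linarith [hs.1]
        have e2 : ker t m s - ker t l s - (m - l) * ker' t l s =
            exp (l * ((t - s : ℝ) : ℂ)) * (exp ((m - l) * ((t - s : ℝ) : ℂ)) - 1 - (m - l) * ((t - s : ℝ) : ℂ)) := by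
          simp only [ker, ker', ContinuousMap.coe_mk]
          have e3 : exp (m * ((t - s : ℝ) : ℂ)) = exp (l * ((t - s : ℝ) : ℂ)) * exp ((m - l) * ((t - s : ℝ) : ℂ)) := by
            rw [← exp_add]; congr 1; ring
          rw [e3]; ring
        rw [e2, norm_mul]
        have h3 : ‖(m - l) * ((t - s : ℝ) : ℂ)‖ ≤ ‖m - l‖ * t := by
          rw [norm_mul, norm_real, Real.norm_eq_abs, abs_of_nonneg hv0]
          gcongr
        have h4 := Complex.norm_exp_sub_one_sub_id_le (h3.trans hm)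
        have h5 : ‖exp (l * ((t - s : ℝ) : ℂ))‖ ≤ Real.exp (‖l‖ * t) := by
          rw [norm_exp]
          apply Real.exp_le_exp.2
          refine (re_le_norm _).trans ?_
          rw [norm_mul, norm_real, Real.norm_eq_abs, abs_of_nonneg hv0]
          gcongr
        calc ‖exp (l * ((t - s : ℝ) : ℂ))‖ * ‖exp ((m - l) * ((t - s : ℝ) : ℂ)) - 1 - (m - l) * ((t - s : ℝ) : ℂ)‖
            ≤ Real.exp (‖l‖ * t) * (‖m - l‖ * t) ^ 2 := by
              refine mul_le_mul h5 (h4.trans ?_) (norm_nonneg _) (Real.exp_pos _).le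
              exact pow_le_pow_left₀ (norm_nonneg _) h3 2
          _ = _ := by ring) x
    refine h2.trans (le_of_eq ?_)
    ring
  rw [Asymptotics.isLittleO_iff]
  intro ε hε
  set C := Real.exp (‖l‖ * t) * t ^ 2 * M * t with hC
  have hC0 : 0 ≤ C := by positivity
  have hev : ∀ᶠ m in 𝓝 l, ‖m - l‖ * t ≤ 1 ∧ C * ‖m - l‖ ≤ ε := by
    have h1 : Tendsto (fun m : ℂ => ‖m - l‖ * t) (𝓝 l) (𝓝 (‖l - l‖ * t)) :=
      (by fun_prop : Continuous fun m : ℂ => ‖m - l‖ * t).tendsto l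
    have h2 : Tendsto (fun m : ℂ => C * ‖m - l‖) (𝓝 l) (𝓝 (C * ‖l - l‖)) :=
      (by fun_prop : Continuous fun m : ℂ => C * ‖m - l‖).tendsto l
    simp only [sub_self, norm_zero, zero_mul, mul_zero] at h1 h2
    exact (h1.eventually (ge_mem_nhds (by norm_num : (0 : ℝ) < 1))).and (h2.eventually (ge_mem_nhds hε))
  filter_upwards [hev] with m hm
  refine (hq m hm.1).trans ?_
  calc C * ‖m - l‖ ^ 2 = (C * ‖m - l‖) * ‖m - l‖ := by ring
    _ ≤ ε * ‖m - l‖ := by gcongr; exact hm.2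

end

end Pool.Agent.H8.Hyp
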