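import Pool.Agent.H8.Hyp.Rel

set_option autoImplicit false

open Set Complex MeasureTheory Filter Topology

namespace Pool.Agent.H8.Hyp

theorem norm_exp_mul (l : ℂ) (t : ℝ) : ‖exp (l * t)‖ = Real.exp (l.re * t) := by
  rw [norm_exp, mul_comm, re_ofReal_mul, mul_comm]

/-- `h` is large on the right -/
theorem hh_right (S : Finset ℝ) (c : ℝ → ℂ) (tm : ℝ) (htm : tm ∈ S) (hmax : ∀ t ∈ S, t ≤ tm) (hcm : c tm ≠ 0) :
    ∃ A : ℝ, ∀ l : ℂ, A ≤ l.re → ‖c tm‖ / 2 * Real.exp (l.re * tm) ≤ ‖hh S c l‖ := by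
  classical
  have hlim : Tendsto (fun σ : ℝ => ∑ t ∈ S.erase tm, ‖c t‖ * Real.exp (σ * (t - tm))) atTop (𝓝 (∑ t ∈ S.erase tm, ‖c t‖ * 0)) := by
    refine tendsto_finsetSum _ fun t ht => ?_
    refine Tendsto.const_mul _ ?_
    have h1 : t - tm < 0 := by
      have := hmax t (Finset.mem_of_mem_erase ht)
      have := Finset.ne_of_mem_erase ht
      rcases lt_or_eq_of_le (hmax t (Finset.mem_of_mem_erase ht)) with h | h
      · linarith
      · exact absurd h this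
    exact Real.tendsto_exp_atBot.comp (tendsto_id.atTop_mul_const_of_neg h1)
  simp only [mul_zero, Finset.sum_const_zero] at hlim
  have hev := hlim.eventually (ge_mem_nhds (by positivity : 0 < ‖c tm‖ / 2))
  obtain ⟨A, hA⟩ := eventually_atTop.1 hev
  refine ⟨A, fun l hl => ?_⟩
  have h1 := hA l.re hl
  have h2 : hh S c l = c tm * exp (l * tm) + ∑ t ∈ S.erase tm, c t * exp (l * t) := by
    unfold hh; rw [Finset.add_sum_erase S (fun t => c t * exp (l * (t : ℂ))) htm]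
  have h3 : ‖∑ t ∈ S.erase tm, c t * exp (l * t)‖ ≤ (∑ t ∈ S.erase tm, ‖c t‖ * Real.exp (l.re * (t - tm))) * Real.exp (l.re * tm) := by
    refine (norm_sum_le _ _).trans (le_of_eq ?_)
    rw [Finset.sum_mul]
    refine Finset.sum_congr rfl fun t _ => ?_
    rw [norm_mul, norm_exp_mul, mul_assoc, ← Real.exp_add]
    congr 2; ring
  have h4 : ‖c tm * exp (l * tm)‖ = ‖c tm‖ * Real.exp (l.re * tm) := by rw [norm_mul, norm_exp_mul]
  have h5 : ‖c tm * exp (l * tm)‖ ≤ ‖hh S c l‖ + ‖∑ t ∈ S.erase tm, c t * exp (l * t)‖ := by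
    have : c tm * exp (l * tm) = hh S c l - ∑ t ∈ S.erase tm, c t * exp (l * t) := by rw [h2]; ring
    rw [this]; exact norm_sub_le _ _
  have h6 : (∑ t ∈ S.erase tm, ‖c t‖ * Real.exp (l.re * (t - tm))) * Real.exp (l.re * tm) ≤ ‖c tm‖ / 2 * Real.exp (l.re * tm) := by
    gcongr
  linarith

/-- `h` is bounded below on the left if `0 ∈ S` -/
theorem hh_left (S : Finset ℝ) (c : ℝ → ℂ) (h0 : (0 : ℝ) ∈ S) (hS : ∀ t ∈ S, 0 ≤ t) (hc0 : c 0 ≠ 0) :
    ∃ A : ℝ, ∀ l : ℂ, l.re ≤ A → ‖c 0‖ / 2 ≤ ‖hh S c l‖ := by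
  classical
  have hlim : Tendsto (fun σ : ℝ => ∑ t ∈ S.erase 0, ‖c t‖ * Real.exp (σ * t)) atBot (𝓝 (∑ t ∈ S.erase 0, ‖c t‖ * 0)) := by
    refine tendsto_finsetSum _ fun t ht => ?_
    refine Tendsto.const_mul _ ?_
    have h1 : 0 < t := lt_of_le_of_ne (hS t (Finset.mem_of_mem_erase ht)) (Ne.symm (Finset.ne_of_mem_erase ht))
    exact Real.tendsto_exp_atBot.comp (tendsto_id.atBot_mul_const h1)
  simp only [mul_zero, Finset.sum_const_zero] at hlim
  have hev := hlim.eventually (ge_mem_nhds (by positivity : 0 < ‖c 0‖ / 2))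
  obtain ⟨A, hA⟩ := eventually_atBot.1 hev
  refine ⟨A, fun l hl => ?_⟩
  have h1 := hA l.re hl
  have h2 : hh S c l = c 0 + ∑ t ∈ S.erase 0, c t * exp (l * t) := by
    unfold hh; rw [← Finset.add_sum_erase S (fun t => c t * exp (l * (t : ℂ))) h0]; simp
  have h3 : ‖∑ t ∈ S.erase 0, c t * exp (l * t)‖ ≤ ∑ t ∈ S.erase 0, ‖c t‖ * Real.exp (l.re * t) := by
    refine (norm_sum_le _ _).trans (le_of_eq ?_)
    refine Finset.sum_congr rfl fun t _ => ?_
    rw [norm_mul, norm_exp_mul]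
  have h5 : ‖c 0‖ ≤ ‖hh S c l‖ + ‖∑ t ∈ S.erase 0, c t * exp (l * t)‖ := by
    have : c 0 = hh S c l - ∑ t ∈ S.erase 0, c t * exp (l * t) := by rw [h2]; ring
    calc ‖c 0‖ = ‖hh S c l - ∑ t ∈ S.erase 0, c t * exp (l * t)‖ := by rw [← this]
      _ ≤ _ := norm_sub_le _ _
  linarith

/-- simultaneous recurrence -/
theorem recur (S : Finset ℝ) (ε : ℝ) (hε : 0 < ε) (N : ℕ) :
    ∃ n : ℕ, N ≤ n ∧ ∀ t ∈ S, ‖exp ((n : ℂ) * t * I) - 1‖ < ε := by
  let v : ℕ → (S → ℂ) := fun m t => exp ((m : ℂ) * (t : ℝ) * I)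
  have hv : ∀ m, v m ∈ Set.pi Set.univ fun _ : S => Metric.closedBall (0 : ℂ) 1 := by
    intro m t _
    rw [mem_closedBall_zero_iff]
    simp only [v]
    have : (m : ℂ) * ((t : ℝ) : ℂ) * I = ((m * t : ℝ) : ℂ) * I := by push_cast; ring
    rw [this, norm_exp_ofReal_mul_I]
  obtain ⟨a, -, φ, hφ, hlim⟩ := (isCompact_univ_pi fun _ : S => isCompact_closedBall (0 : ℂ) 1).tendsto_subseq hv
  have hcs := hlim.cauchySeq
  rw [Metric.cauchySeq_iff] at hcs
  obtain ⟨K, hK⟩ := hcs ε hε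
  have hKN := hK (K + N) (by omega) K le_rfl
  refine ⟨φ (K + N) - φ K, ?_, fun t ht => ?_⟩
  · have h1 : φ K + N ≤ φ (K + N) := by
      clear hKN
      induction N with
      | zero => simp
      | succ N ih =>
        have := hφ (show K + N < K + (N + 1) by omega)
        omega
    omega
  · have h2 := (dist_pi_lt_iff hε).1 hKN ⟨t, ht⟩
    simp only [Function.comp_apply, v] at h2
    rw [dist_eq_norm] at h2
    have hle : φ K ≤ φ (K + N) := hφ.monotone (by omega)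
    have h3 : exp (((φ (K + N) : ℕ) : ℂ) * (t : ℝ) * I) - exp (((φ K : ℕ) : ℂ) * (t : ℝ) * I) =
        exp (((φ K : ℕ) : ℂ) * (t : ℝ) * I) * (exp (((φ (K + N) - φ K : ℕ) : ℂ) * t * I) - 1) := by
      rw [mul_sub, ← exp_add, mul_one]
      congr 2
      push_cast [hle]; ring
    rw [h3, norm_mul] at h2
    have h4 : ‖exp (((φ K : ℕ) : ℂ) * (t : ℝ) * I)‖ = 1 := by
      have : ((φ K : ℕ) : ℂ) * ((t : ℝ) : ℂ) * I = (((φ K : ℕ) * t : ℝ) : ℂ) * I := by push_cast; ring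
      rw [this, norm_exp_ofReal_mul_I]
    rw [h4, one_mul] at h2
    exact h2

/-- horizontal segments on which `h` is bounded below, arbitrarily high and low -/
theorem hh_lines (S : Finset ℝ) (c : ℝ → ℂ) (A : ℝ) (hne : ∃ l, hh S c l ≠ 0) :
    ∃ δ : ℝ, 0 < δ ∧ ∀ N : ℕ, (∃ y : ℝ, (N : ℝ) ≤ y ∧ ∀ x ∈ Icc (-A) A, δ ≤ ‖hh S c (x + y * I)‖) ∧
      (∃ y : ℝ, y ≤ -(N : ℝ) ∧ ∀ x ∈ Icc (-A) A, δ ≤ ‖hh S c (x + y * I)‖) := by
  -- a zero free horizontal segment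
  have hy0 : ∃ y0 ∈ Icc (0 : ℝ) 1, ∀ x ∈ Icc (-A) A, hh S c (x + y0 * I) ≠ 0 := by
    by_contra hcon
    push Not at hcon
    choose! x hx hx0 using hcon
    let p : ℝ → ℂ := fun y => (x y : ℂ) + y * I
    have hinj : InjOn p (Icc 0 1) := by
      intro y _ y' _ h
      have := congrArg Complex.im h
      simpa [p] using this
    have hinf : (p '' Icc (0 : ℝ) 1).Infinite := (Icc_infinite (by norm_num)).image hinj
    have hsub : p '' Icc (0 : ℝ) 1 ⊆ (Icc (-A) A) ×ℂ (Icc (0 : ℝ) 1) := by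
      rintro _ ⟨y, hy, rfl⟩
      rw [mem_reProdIm]
      simp only [p, add_re, ofReal_re, mul_re, I_re, mul_zero, ofReal_im, I_im, mul_one, sub_self, add_zero,
        add_im, mul_im, zero_add]
      exact ⟨hx y hy, hy⟩
    have hcomp : IsCompact ((Icc (-A) A) ×ℂ (Icc (0 : ℝ) 1)) := isCompact_Icc.reProdIm isCompact_Icc
    obtain ⟨a, _, ha⟩ := hinf.exists_accPt_of_subset_isCompact hcomp hsub
    have han : AnalyticOnNhd ℂ (hh S c) univ := fun z _ => (hh_diff S c).analyticAt z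
    have hfreq : ∃ᶠ z in 𝓝[≠] a, hh S c z = 0 := by
      rw [accPt_iff_frequently] at ha
      rw [frequently_nhdsWithin_iff]
      refine ha.mono ?_
      rintro z ⟨hz, y, hy, rfl⟩
      exact ⟨hx0 y hy, hz⟩
    have hz := han.eqOn_zero_of_preconnected_of_frequently_eq_zero isPreconnected_univ (mem_univ a) hfreq
    obtain ⟨l, hl⟩ := hne
    exact hl (hz (mem_univ l))
  obtain ⟨y0, _, hy0⟩ := hy0
  -- minimum on the segment
  have hδ : ∃ δ : ℝ, 0 < δ ∧ ∀ x ∈ Icc (-A) A, δ ≤ ‖hh S c (x + y0 * I)‖ := by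
    by_cases hA : (Icc (-A) A).Nonempty
    · have hcont : ContinuousOn (fun x : ℝ => ‖hh S c (x + y0 * I)‖) (Icc (-A) A) :=
        ((hh_diff S c).continuous.comp (by fun_prop : Continuous fun x : ℝ => (x : ℂ) + y0 * I)).norm.continuousOn
      obtain ⟨x0, hx0, hmin⟩ := isCompact_Icc.exists_isMinOn hA hcont
      exact ⟨_, norm_pos_iff.2 (hy0 x0 hx0), fun x hx => hmin hx⟩
    · exact ⟨1, one_pos, fun x hx => absurd ⟨x, hx⟩ hA⟩
  obtain ⟨δ, hδ0, hδ⟩ := hδ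
  obtain ⟨C, hC0, hC⟩ : ∃ C : ℝ, 0 < C ∧ ∀ (x y : ℝ), x ∈ Icc (-A) A → ∑ t ∈ S, ‖c t * exp (((x : ℂ) + y * I) * t)‖ ≤ C := by
    refine ⟨∑ t ∈ S, ‖c t‖ * Real.exp (|A| * |t|) + 1, by positivity, fun x y hx => ?_⟩
    refine le_trans (Finset.sum_le_sum fun t _ => ?_) (le_add_of_nonneg_right zero_le_one)
    rw [norm_mul, norm_exp_mul]
    refine mul_le_mul_of_nonneg_left (Real.exp_le_exp.2 ?_) (norm_nonneg _)
    simp only [add_re, ofReal_re, mul_re, I_re, mul_zero, ofReal_im, I_im, mul_one, sub_self, add_zero]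
    have h1 : |x| ≤ |A| := by
      rw [abs_le]
      have := le_abs_self A
      constructor <;> linarith [hx.1, hx.2]
    calc x * t ≤ |x * t| := le_abs_self _
      _ = |x| * |t| := abs_mul _ _
      _ ≤ |A| * |t| := by gcongr
  have hkey : ∀ (x y y' : ℝ) (ε : ℝ), x ∈ Icc (-A) A → (∀ t ∈ S, ‖exp (((y' - y : ℝ) : ℂ) * t * I) - 1‖ ≤ ε) →
      ‖hh S c (x + y' * I) - hh S c (x + y * I)‖ ≤ C * ε := by
    intro x y y' ε hx hε
    have e1 : hh S c (x + y' * I) - hh S c (x + y * I) =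
        ∑ t ∈ S, (c t * exp (((x : ℂ) + y * I) * t)) * (exp (((y' - y : ℝ) : ℂ) * t * I) - 1) := by
      unfold hh
      rw [← Finset.sum_sub_distrib]
      refine Finset.sum_congr rfl fun t _ => ?_
      rw [mul_sub, mul_one, mul_assoc, ← exp_add]
      congr 3
      push_cast; ring
    rw [e1]
    refine (norm_sum_le _ _).trans ?_
    calc ∑ t ∈ S, ‖c t * exp (((x : ℂ) + y * I) * t) * (exp (((y' - y : ℝ) : ℂ) * t * I) - 1)‖
        ≤ ∑ t ∈ S, ‖c t * exp (((x : ℂ) + y * I) * t)‖ * ε := Finset.sum_le_sum fun t ht => by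
          rw [norm_mul]
          exact mul_le_mul_of_nonneg_left (hε t ht) (norm_nonneg _)
      _ = (∑ t ∈ S, ‖c t * exp (((x : ℂ) + y * I) * t)‖) * ε := by rw [Finset.sum_mul]
      _ ≤ C * ε := by
        rcases S.eq_empty_or_nonempty with h | ⟨t, ht⟩
        · exfalso
          obtain ⟨l, hl⟩ := hne
          apply hl
          unfold hh; rw [h]; simp
        · have : 0 ≤ ε := (norm_nonneg _).trans (hε t ht)
          exact mul_le_mul_of_nonneg_right (hC x y hx) this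
  refine ⟨δ / 2, by positivity, fun N => ?_⟩
  obtain ⟨n, hn, hrec⟩ := recur S (δ / (2 * C)) (by positivity) (N + ⌈|y0|⌉₊)
  have hn' : (N : ℝ) + |y0| ≤ n := by
    have h1 : ((N + ⌈|y0|⌉₊ : ℕ) : ℝ) ≤ n := by exact_mod_cast hn
    push_cast at h1
    have := Nat.le_ceil |y0|
    linarith
  have hC2 : C * (δ / (2 * C)) = δ / 2 := by field_simp
  constructor
  · refine ⟨y0 + n, by linarith [neg_abs_le y0], fun x hx => ?_⟩
    have h1 := hkey x y0 (y0 + n) (δ / (2 * C)) hx (fun t ht => by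
      have := (hrec t ht).le
      have e : ((y0 + n - y0 : ℝ) : ℂ) = (n : ℂ) := by push_cast; ring
      rw [e]; exact this)
    rw [hC2] at h1
    have h2 := hδ x hx
    have h3 : ‖hh S c (x + y0 * I)‖ ≤ ‖hh S c (x + ((y0 + n : ℝ) : ℂ) * I)‖ + ‖hh S c (x + ((y0 + n : ℝ) : ℂ) * I) - hh S c (x + y0 * I)‖ := by
      have := norm_sub_le (hh S c (x + ((y0 + n : ℝ) : ℂ) * I)) (hh S c (x + ((y0 + n : ℝ) : ℂ) * I) - hh S c (x + y0 * I))
      simpa using this
    linarith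
  · refine ⟨y0 - n, by linarith [le_abs_self y0], fun x hx => ?_⟩
    have h1 := hkey x y0 (y0 - n) (δ / (2 * C)) hx (fun t ht => by
      have := (hrec t ht).le
      have e : ((y0 - n - y0 : ℝ) : ℂ) = -(n : ℂ) := by push_cast; ring
      rw [e]
      have e2 : exp (-(n : ℂ) * t * I) - 1 = -(exp (-(n : ℂ) * t * I)) * (exp ((n : ℂ) * t * I) - 1) := by
        have : exp (-(n : ℂ) * t * I) * exp ((n : ℂ) * t * I) = 1 := by
          rw [← exp_add]; ring_nf; exact exp_zero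
        linear_combination this
      have e3 : ‖exp (-(n : ℂ) * t * I)‖ = 1 := by
        have : -(n : ℂ) * (t : ℂ) * I = ((-(n * t) : ℝ) : ℂ) * I := by push_cast; ring
        rw [this, norm_exp_ofReal_mul_I]
      rw [e2, norm_mul, norm_neg, e3, one_mul]
      exact this)
    rw [hC2] at h1
    have h2 := hδ x hx
    have h3 : ‖hh S c (x + y0 * I)‖ ≤ ‖hh S c (x + ((y0 - n : ℝ) : ℂ) * I)‖ + ‖hh S c (x + ((y0 - n : ℝ) : ℂ) * I) - hh S c (x + y0 * I)‖ := by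
      have := norm_sub_le (hh S c (x + ((y0 - n : ℝ) : ℂ) * I)) (hh S c (x + ((y0 - n : ℝ) : ℂ) * I) - hh S c (x + y0 * I))
      simpa using this
    linarith

end Pool.Agent.H8.Hyp
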