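import Pool.Agent.H8.Hyp.Ent

set_option autoImplicit false

open Set Complex MeasureTheory Filter Topology

namespace Pool.Agent.H8.Hyp

section
variable {X : Type*} [NormedAddCommGroup X] [NormedSpace ℝ X] [CompleteSpace X]
variable (T : ℝ → X →L[ℝ] X) (Φ : X →L[ℝ] ℂ) (hc : ∀ x, ContinuousOn (fun t => T t x) (Ici 0))
variable (S : Finset ℝ) (c : ℝ → ℂ)

theorem hh_eventually_ne (hne : ∃ l, hh S c l ≠ 0) (a : ℂ) : ∀ᶠ z in 𝓝[≠] a, hh S c z ≠ 0 := by
  have han : AnalyticOnNhd ℂ (hh S c) univ := fun z _ => (hh_diff S c).analyticAt z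
  rcases (han a (mem_univ a)).eventually_eq_zero_or_eventually_ne_zero with h | h
  · exfalso
    have := han.eqOn_zero_of_preconnected_of_eventuallyEq_zero isPreconnected_univ (mem_univ a) h
    obtain ⟨l, hl⟩ := hne
    exact hl (this (mem_univ l))
  · exact h

/-- the entire function `F = G / h` -/
theorem exists_F (hadd : ∀ s t, 0 ≤ s → 0 ≤ t → ∀ x, T (s + t) x = T s (T t x)) (hS : ∀ t ∈ S, 0 ≤ t)
    (hrel : ∀ x, ∑ t ∈ S, c t * Φ (T t x) = 0) (hne : ∃ l, hh S c l ≠ 0)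
    (hno : ∀ (ψ : X →L[ℝ] ℂ) (l : ℂ), (∀ r : ℝ, 0 ≤ r → ∀ x, ψ (T r x) = exp (l * r) * ψ x) → ψ = 0) :
    ∃ F : ℂ → (X →L[ℝ] ℂ), Differentiable ℂ F ∧ ∀ l, hh S c l ≠ 0 → F l = (hh S c l)⁻¹ • GG T Φ hc S c l := by
  let f : ℂ → (X →L[ℝ] ℂ) := fun l => (hh S c l)⁻¹ • GG T Φ hc S c l
  have hG := GG_diff T Φ hc S c hS
  have hmer : MeromorphicOn f univ := fun z _ =>
    ((hh_diff S c).analyticAt z).meromorphicAt.inv.smul (hG.analyticAt z).meromorphicAt
  have hord : ∀ a, 0 ≤ meromorphicOrderAt f a := by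
    intro a
    by_contra hlt
    push Not at hlt
    obtain ⟨n, hn⟩ : ∃ n : ℤ, meromorphicOrderAt f a = n :=
      ⟨_, (WithTop.coe_untop _ (ne_top_of_lt hlt)).symm⟩
    have hn0 : n < 0 := by rw [hn] at hlt; exact_mod_cast hlt
    obtain ⟨g, hg, hga, hgf⟩ := (meromorphicOrderAt_eq_int_iff (hmer a (mem_univ a))).1 hn
    obtain ⟨p, hp⟩ : ∃ p : ℕ, n = -((p + 1 : ℕ) : ℤ) := ⟨(-n - 1).toNat, by omega⟩
    apply hga
    refine hno (g a) a fun r hr x => ?_
    -- relation on a punctured neighbourhood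
    have hev : ∀ᶠ z in 𝓝[≠] a, g z (T r x) = exp (z * r) * (g z x - (z - a) ^ (p + 1) *
        ∫ s in (0 : ℝ)..r, exp (-(z * s)) * uu T Φ x s) := by
      filter_upwards [hgf, hh_eventually_ne S c hne a, self_mem_nhdsWithin] with z hz1 hz2 hz3
      have hza : z - a ≠ 0 := sub_ne_zero.2 hz3
      have hgz : g z = (z - a) ^ (p + 1) • f z := by
        rw [hz1, hp, smul_smul, zpow_neg, zpow_natCast, mul_inv_cancel₀ (pow_ne_zero _ hza), one_smul]
      have h1 := GG_rel T Φ hc S c hadd hS hrel x r hr z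
      rw [hgz]
      simp only [f]
      show (z - a) ^ (p + 1) * ((hh S c z)⁻¹ * (GG T Φ hc S c z) (T r x)) =
        exp (z * r) * ((z - a) ^ (p + 1) * ((hh S c z)⁻¹ * (GG T Φ hc S c z) x) - _)
      rw [h1]
      field_simp
    have hl1 : Tendsto (fun z => g z (T r x)) (𝓝[≠] a) (𝓝 (g a (T r x))) := by
      have : ContinuousAt (fun z => g z (T r x)) a := (hg.continuousAt).clm_apply continuousAt_const
      exact this.tendsto.mono_left nhdsWithin_le_nhds
    have hJ : Tendsto (fun z : ℂ => (z - a) ^ (p + 1) * ∫ s in (0 : ℝ)..r, exp (-(z * s)) * uu T Φ x s) (𝓝[≠] a) (𝓝 0) := by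
      have hcont : Continuous fun z : ℂ => ∫ s in (0 : ℝ)..r, exp (-(z * s)) * uu T Φ x s := by
        apply intervalIntegral.continuous_parametric_intervalIntegral_of_continuous'
        have h1 : Continuous fun q : ℂ × ℝ => uu T Φ x q.2 := (uu_cont T Φ hc x).comp continuous_snd
        exact (by fun_prop : Continuous fun q : ℂ × ℝ => exp (-(q.1 * q.2))).mul h1
      have h2 : Continuous fun z : ℂ => (z - a) ^ (p + 1) * ∫ s in (0 : ℝ)..r, exp (-(z * s)) * uu T Φ x s :=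
        (by fun_prop : Continuous fun z : ℂ => (z - a) ^ (p + 1)).mul hcont
      have h3 := h2.tendsto a
      simp only [sub_self, ne_eq, Nat.add_eq_zero_iff, one_ne_zero, and_false, not_false_eq_true, zero_pow, zero_mul] at h3
      exact h3.mono_left nhdsWithin_le_nhds
    have hl2 : Tendsto (fun z => exp (z * r) * (g z x - (z - a) ^ (p + 1) *
        ∫ s in (0 : ℝ)..r, exp (-(z * s)) * uu T Φ x s)) (𝓝[≠] a) (𝓝 (exp (a * r) * (g a x - 0))) := by
      refine Tendsto.mul ?_ (Tendsto.sub ?_ hJ)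
      · exact ((by fun_prop : Continuous fun z : ℂ => exp (z * r)).tendsto a).mono_left nhdsWithin_le_nhds
      · have : ContinuousAt (fun z => g z x) a := (hg.continuousAt).clm_apply continuousAt_const
        exact this.tendsto.mono_left nhdsWithin_le_nhds
    have hl3 := hl1.congr' hev
    have := tendsto_nhds_unique hl3 hl2
    rw [this, sub_zero]
  let F := toMeromorphicNFOn f univ
  have hFan : ∀ a, AnalyticAt ℂ F a := by
    intro a
    have h1 : MeromorphicNFAt F a := meromorphicNFOn_toMeromorphicNFOn f univ (mem_univ a)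
    refine h1.meromorphicOrderAt_nonneg_iff_analyticAt.1 ?_
    rw [meromorphicOrderAt_toMeromorphicNFOn hmer (mem_univ a)]
    exact hord a
  refine ⟨F, fun a => (hFan a).differentiableAt, fun l hl => ?_⟩
  have h1 := hmer.toMeromorphicNFOn_eq_self_on_nhdsNE (mem_univ l)
  have h2 : ContinuousAt f l :=
    (((hh_diff S c).continuous.continuousAt).inv₀ hl).smul (hG.continuous.continuousAt)
  have h3 : Tendsto F (𝓝[≠] l) (𝓝 (F l)) := (hFan l).continuousAt.tendsto.mono_left nhdsWithin_le_nhds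
  have h4 : Tendsto f (𝓝[≠] l) (𝓝 (f l)) := h2.tendsto.mono_left nhdsWithin_le_nhds
  exact tendsto_nhds_unique h3 (h4.congr' (h1.mono fun z hz => hz.symm))

include hc in
theorem core (hT0 : ∀ x, T 0 x = x) (hadd : ∀ s t, 0 ≤ s → 0 ≤ t → ∀ x, T (s + t) x = T s (T t x))
    (hS : ∀ t ∈ S, 0 ≤ t) (h0 : (0 : ℝ) ∈ S) (hc0 : ∀ t ∈ S, c t ≠ 0)
    (hrel : ∀ x, ∑ t ∈ S, c t * Φ (T t x) = 0)
    (hno : ∀ (ψ : X →L[ℝ] ℂ) (l : ℂ), (∀ r : ℝ, 0 ≤ r → ∀ x, ψ (T r x) = exp (l * r) * ψ x) → ψ = 0) :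
    Φ = 0 := by
  obtain ⟨AL, hAL⟩ := hh_left S c h0 hS (hc0 0 h0)
  obtain ⟨AR, hAR⟩ := hh_right S c (S.max' ⟨0, h0⟩) (Finset.max'_mem _ _) (fun t ht => Finset.le_max' _ t ht)
    (hc0 _ (Finset.max'_mem _ _))
  set tm := S.max' ⟨0, h0⟩ with htm
  have hc00 : 0 < ‖c 0‖ := norm_pos_iff.2 (hc0 0 h0)
  have hctm : 0 < ‖c tm‖ := norm_pos_iff.2 (hc0 _ (Finset.max'_mem _ _))
  have hne : ∃ l, hh S c l ≠ 0 := by
    refine ⟨(AL : ℂ), ?_⟩
    have := hAL (AL : ℂ) (by simp)
    intro h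
    rw [h, norm_zero] at this
    linarith
  obtain ⟨F, hF, hFe⟩ := exists_F T Φ hc S c hadd hS hrel hne hno
  -- choose A
  set A : ℝ := max 1 (max (-AL) AR) with hA
  have hA1 : 1 ≤ A := le_max_left _ _
  have hAL' : -A ≤ AL := by
    have : -AL ≤ A := (le_max_left _ _).trans (le_max_right _ _)
    linarith
  have hAR' : AR ≤ A := (le_max_right _ _).trans (le_max_right _ _)
  obtain ⟨C1, hC10, hC1⟩ := GG_bound T Φ hc S c hS A
  obtain ⟨C2, hC20, hC2⟩ := GG_bound_right T Φ hc S c hS tm (fun t ht => Finset.le_max' _ t ht)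
  obtain ⟨δ, hδ0, hδ⟩ := hh_lines S c A hne
  have hnormF : ∀ l, hh S c l ≠ 0 → ‖F l‖ = ‖GG T Φ hc S c l‖ / ‖hh S c l‖ := by
    intro l hl
    rw [hFe l hl, norm_smul, norm_inv]
    ring
  -- left
  have hleft : ∀ l : ℂ, l.re ≤ -A → ‖F l‖ ≤ C1 / (‖c 0‖ / 2) := by
    intro l hl
    have h1 := hAL l (hl.trans hAL')
    have h2 : hh S c l ≠ 0 := by
      intro h; rw [h, norm_zero] at h1; linarith
    rw [hnormF l h2]
    exact div_le_div₀ hC10 (hC1 l (by linarith)) (by positivity) h1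
  -- right
  have hright : ∀ l : ℂ, A ≤ l.re → ‖F l‖ ≤ (C2 / (‖c tm‖ / 2)) / l.re := by
    intro l hl
    have hl0 : 0 < l.re := by linarith
    have h1 := hAR l (hAR'.trans hl)
    have h2 : hh S c l ≠ 0 := by
      intro h; rw [h, norm_zero] at h1
      have := Real.exp_pos (l.re * tm)
      have := mul_pos (half_pos hctm) this
      linarith
    rw [hnormF l h2]
    have h3 := hC2 l hl0
    have h4 : 0 < ‖c tm‖ / 2 * Real.exp (l.re * tm) := by positivity
    calc ‖GG T Φ hc S c l‖ / ‖hh S c l‖ ≤ (C2 * (Real.exp (l.re * tm) / l.re)) / (‖c tm‖ / 2 * Real.exp (l.re * tm)) :=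
          div_le_div₀ (by positivity) h3 h4 h1
      _ = (C2 / (‖c tm‖ / 2)) / l.re := by
          have := (Real.exp_pos (l.re * tm)).ne'
          field_simp
  set C := max (max (C1 / (‖c 0‖ / 2)) (C2 / (‖c tm‖ / 2))) (C1 / δ) with hC
  have hCa : C1 / (‖c 0‖ / 2) ≤ C := (le_max_left _ _).trans (le_max_left _ _)
  have hCb : C2 / (‖c tm‖ / 2) ≤ C := (le_max_right _ _).trans (le_max_left _ _)
  have hCc : C1 / δ ≤ C := le_max_right _ _
  have hright' : ∀ l : ℂ, A ≤ l.re → ‖F l‖ ≤ C := by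
    intro l hl
    refine (hright l hl).trans (le_trans ?_ hCb)
    exact div_le_self (by positivity) (by linarith)
  have hlines : ∀ (x y : ℝ), x ∈ Icc (-A) A → δ ≤ ‖hh S c (x + y * I)‖ → ‖F (x + y * I)‖ ≤ C := by
    intro x y hx h1
    have h2 : hh S c (x + y * I) ≠ 0 := by
      intro h; rw [h, norm_zero] at h1; linarith
    rw [hnormF _ h2]
    refine le_trans ?_ hCc
    refine div_le_div₀ hC10 (hC1 _ ?_) hδ0 h1
    simpa using hx.2
  have hbound : ∀ l, ‖F l‖ ≤ C := by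
    intro l
    rcases le_total l.re (-A) with h1 | h1
    · exact (hleft l h1).trans hCa
    rcases le_total A l.re with h2 | h2
    · exact hright' l h2
    obtain ⟨N, hN⟩ := exists_nat_gt |l.im|
    obtain ⟨⟨y1, hy1, hy1'⟩, ⟨y2, hy2, hy2'⟩⟩ := hδ N
    have hm1 : l.im < y1 := (le_abs_self _).trans_lt (hN.trans_le hy1)
    have hm2 : y2 < l.im := by
      have := neg_abs_le l.im
      linarith
    have hre : ∀ z : ℂ, z = (z.re : ℂ) + z.im * I := fun z => (re_add_im z).symm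
    have hU : Bornology.IsBounded ((Ioo (-A) A) ×ℂ (Ioo y2 y1)) :=
      (Metric.isBounded_Ioo _ _).reProdIm (Metric.isBounded_Ioo _ _)
    refine Complex.norm_le_of_forall_mem_frontier_norm_le hU hF.diffContOnCl ?_ (z := l) ?_
    · intro z hz
      have hcl : z ∈ (Icc (-A) A) ×ℂ (Icc y2 y1) := by
        have := frontier_subset_closure hz
        rwa [closure_reProdIm, closure_Ioo (by linarith), closure_Ioo (by linarith)] at this
      rw [mem_reProdIm] at hcl
      have hnot : z ∉ (Ioo (-A) A) ×ℂ (Ioo y2 y1) := by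
        have hopen : IsOpen ((Ioo (-A) A) ×ℂ (Ioo y2 y1)) := isOpen_Ioo.reProdIm isOpen_Ioo
        rw [hopen.frontier_eq] at hz
        exact hz.2
      rw [mem_reProdIm] at hnot
      by_cases ha : z.re ≤ -A
      · exact (hleft z ha).trans hCa
      by_cases hb : A ≤ z.re
      · exact hright' z hb
      push Not at ha hb
      have hz3 : z.im = y1 ∨ z.im = y2 := by
        by_contra hcon
        push Not at hcon
        apply hnot
        exact ⟨⟨ha, hb⟩, lt_of_le_of_ne hcl.2.1 (Ne.symm hcon.2), lt_of_le_of_ne hcl.2.2 hcon.1⟩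
      rcases hz3 with h | h
      · rw [hre z, h]
        exact hlines _ _ hcl.1 (hy1' _ hcl.1)
      · rw [hre z, h]
        exact hlines _ _ hcl.1 (hy2' _ hcl.1)
    · rw [closure_reProdIm, closure_Ioo (by linarith), closure_Ioo (by linarith), mem_reProdIm]
      exact ⟨⟨h1, h2⟩, hm2.le, hm1.le⟩
  have hconst : ∀ z w, F z = F w := by
    apply hF.apply_eq_apply_of_bounded
    rw [isBounded_iff_forall_norm_le]
    exact ⟨C, by rintro _ ⟨z, rfl⟩; exact hbound z⟩
  have hFzero : ∀ l, F l = 0 := by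
    intro l
    rw [← norm_eq_zero]
    refine le_antisymm ?_ (norm_nonneg _)
    have hlim : Tendsto (fun σ : ℝ => (C2 / (‖c tm‖ / 2)) / σ) atTop (𝓝 0) := tendsto_const_nhds.div_atTop tendsto_id
    refine ge_of_tendsto hlim ?_
    filter_upwards [eventually_ge_atTop A] with σ hσ
    rw [hconst l (σ : ℂ)]
    have := hright (σ : ℂ) (by simpa using hσ)
    simpa using this
  -- conclusion
  obtain ⟨l, hl⟩ := hne
  have hGl : GG T Φ hc S c l = 0 := by
    have h1 := hFe l hl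
    rw [hFzero l] at h1
    have h2 : GG T Φ hc S c l = hh S c l • ((hh S c l)⁻¹ • GG T Φ hc S c l) := by
      rw [smul_smul, mul_inv_cancel₀ hl, one_smul]
    rw [h2, ← h1]
    ext y
    exact mul_zero _
  ext x
  have hint : ∀ r : ℝ, 0 ≤ r → ∫ s in (0 : ℝ)..r, exp (-(l * s)) * uu T Φ x s = 0 := by
    intro r hr
    have h1 := GG_rel T Φ hc S c hadd hS hrel x r hr l
    rw [hGl] at h1
    simp only [zero_apply, zero_sub, mul_neg] at h1
    have h2 := neg_eq_zero.1 h1.symm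
    rcases mul_eq_zero.1 h2 with h | h
    · exact absurd h (exp_ne_zero _)
    rcases mul_eq_zero.1 h with h | h
    · exact absurd h hl
    · exact h
  have hcont : Continuous fun s : ℝ => exp (-(l * s)) * uu T Φ x s :=
    (by fun_prop : Continuous fun s : ℝ => exp (-(l * s))).mul (uu_cont T Φ hc x)
  have hd : HasDerivAt (fun r : ℝ => ∫ s in (0 : ℝ)..r, exp (-(l * s)) * uu T Φ x s) (exp (-(l * (0 : ℝ))) * uu T Φ x 0) 0 :=
    intervalIntegral.integral_hasDerivAt_right (hcont.intervalIntegrable _ _)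
      (hcont.stronglyMeasurableAtFilter _ _) hcont.continuousAt
  have hd1 := hd.hasDerivWithinAt (s := Ici 0)
  have hd2 : HasDerivWithinAt (fun r : ℝ => ∫ s in (0 : ℝ)..r, exp (-(l * s)) * uu T Φ x s) 0 (Ici 0) 0 := by
    refine (hasDerivWithinAt_const (0 : ℝ) (Ici (0 : ℝ)) (0 : ℂ)).congr (fun r hr => hint r hr) (hint 0 le_rfl)
  have := (uniqueDiffWithinAt_Ici (0 : ℝ)).eq_deriv _ hd1 hd2
  simp only [ofReal_zero, mul_zero, neg_zero, exp_zero, one_mul] at this
  unfold uu at this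
  rw [max_self, hT0] at this
  simpa using this

end

end Pool.Agent.H8.Hyp
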