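import Pool.Agent.H8.Hyp.Core

set_option autoImplicit false

open Set Complex MeasureTheory Filter Topology

namespace Pool.Agent.H8.Hyp

/-- exponential polynomial -/
noncomputable def hh (S : Finset ℝ) (c : ℝ → ℂ) (l : ℂ) : ℂ := ∑ t ∈ S, c t * exp (l * t)

theorem hh_diff (S : Finset ℝ) (c : ℝ → ℂ) : Differentiable ℂ (hh S c) := by
  unfold hh; fun_prop

section
variable {X : Type*} [NormedAddCommGroup X] [NormedSpace ℝ X] [CompleteSpace X]
variable (T : ℝ → X →L[ℝ] X) (Φ : X →L[ℝ] ℂ) (hc : ∀ x, ContinuousOn (fun t => T t x) (Ici 0))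
variable (S : Finset ℝ) (c : ℝ → ℂ)

/-- numerator of the resolvent -/
noncomputable def GG (l : ℂ) : X →L[ℝ] ℂ := ∑ t ∈ S, c t • BB T Φ hc t (ker t l)

theorem GG_diff (hS : ∀ t ∈ S, 0 ≤ t) : Differentiable ℂ (GG T Φ hc S c) := by
  unfold GG
  intro l
  have : ∀ t ∈ S, DifferentiableAt ℂ (fun l => c t • BB T Φ hc t (ker t l)) l := fun t ht =>
    ((BB_hasDeriv T Φ hc t (hS t ht) l).differentiableAt).const_smul (c t)
  exact DifferentiableAt.fun_sum this

theorem GG_rel (hadd : ∀ s t, 0 ≤ s → 0 ≤ t → ∀ x, T (s + t) x = T s (T t x)) (hS : ∀ t ∈ S, 0 ≤ t)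
    (hrel : ∀ x, ∑ t ∈ S, c t * Φ (T t x) = 0) (x : X) (r : ℝ) (hr : 0 ≤ r) (l : ℂ) :
    GG T Φ hc S c l (T r x) = exp (l * r) *
      (GG T Φ hc S c l x - hh S c l * ∫ s in (0 : ℝ)..r, exp (-(l * s)) * uu T Φ x s) := by
  have hu := uu_cont T Φ hc x
  have happ : ∀ y, GG T Φ hc S c l y = ∑ t ∈ S, c t * ∫ s in (0 : ℝ)..t, ker t l s * uu T Φ y s := by
    intro y
    unfold GG
    rw [sum_apply]
    refine Finset.sum_congr rfl fun t ht => ?_
    rw [← BB_apply T Φ hc t (hS t ht)]; rfl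
  have hint : ∀ (f : ℝ → ℂ) (_ : Continuous f) (a b : ℝ), IntervalIntegrable f volume a b :=
    fun f hf a b => hf.intervalIntegrable a b
  have hterm : ∀ t ∈ S, ∫ s in (0 : ℝ)..t, ker t l s * uu T Φ (T r x) s =
      exp (l * r) * ((∫ s in (0 : ℝ)..t, ker t l s * uu T Φ x s) +
        (∫ s in (0 : ℝ)..r, exp (-(l * s)) * uu T Φ x (s + t)) -
        exp (l * t) * ∫ s in (0 : ℝ)..r, exp (-(l * s)) * uu T Φ x s) := by
    intro t ht
    have ht0 := hS t ht
    have hk : Continuous fun s => ker t l s * uu T Φ x s := (ker t l).continuous.mul hu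
    have e1 : ∫ s in (0 : ℝ)..t, ker t l s * uu T Φ (T r x) s =
        ∫ s in (0 : ℝ)..t, exp (l * r) * (ker t l (s + r) * uu T Φ x (s + r)) := by
      refine intervalIntegral.integral_congr fun s hs => ?_
      rw [uIcc_of_le ht0] at hs
      rw [uu_shift T Φ hadd x r s hr hs.1]
      have : ker t l s = exp (l * r) * ker t l (s + r) := by
        simp only [ker, ContinuousMap.coe_mk]
        rw [← exp_add]; congr 1; push_cast; ring
      rw [this]; ring
    rw [e1, intervalIntegral.integral_const_mul,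
      intervalIntegral.integral_comp_add_right (fun s => ker t l s * uu T Φ x s) r, zero_add]
    congr 1
    have e2 : ∫ s in r..(t + r), ker t l s * uu T Φ x s =
        (∫ s in (0 : ℝ)..t, ker t l s * uu T Φ x s) + (∫ s in t..(t + r), ker t l s * uu T Φ x s) -
          ∫ s in (0 : ℝ)..r, ker t l s * uu T Φ x s := by
      rw [intervalIntegral.integral_add_adjacent_intervals (hint _ hk _ _) (hint _ hk _ _),
        ← intervalIntegral.integral_add_adjacent_intervals (hint _ hk 0 r) (hint _ hk r (t + r))]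
      ring
    rw [e2]
    have e3 : ∫ s in t..(t + r), ker t l s * uu T Φ x s = ∫ s in (0 : ℝ)..r, exp (-(l * s)) * uu T Φ x (s + t) := by
      have := intervalIntegral.integral_comp_add_right (a := 0) (b := r) (fun s => ker t l s * uu T Φ x s) t
      rw [zero_add, add_comm r t] at this
      rw [← this]
      refine intervalIntegral.integral_congr fun s _ => ?_
      simp only [ker, ContinuousMap.coe_mk]
      congr 2
      push_cast; ring
    have e4 : ∫ s in (0 : ℝ)..r, ker t l s * uu T Φ x s = exp (l * t) * ∫ s in (0 : ℝ)..r, exp (-(l * s)) * uu T Φ x s := by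
      rw [← intervalIntegral.integral_const_mul]
      refine intervalIntegral.integral_congr fun s _ => ?_
      simp only [ker, ContinuousMap.coe_mk]
      rw [← mul_assoc, ← exp_add]
      congr 2
      push_cast; ring
    rw [e3, e4]
  rw [happ, happ, Finset.sum_congr rfl fun t ht => by rw [hterm t ht]]
  have hz : ∑ t ∈ S, c t * ∫ s in (0 : ℝ)..r, exp (-(l * s)) * uu T Φ x (s + t) = 0 := by
    have e5 : ∀ t ∈ S, c t * ∫ s in (0 : ℝ)..r, exp (-(l * s)) * uu T Φ x (s + t) =
        ∫ s in (0 : ℝ)..r, c t * (exp (-(l * s)) * uu T Φ x (s + t)) := fun t _ => by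
      rw [intervalIntegral.integral_const_mul]
    rw [Finset.sum_congr rfl e5, ← intervalIntegral.integral_finsetSum]
    · have : ∫ s in (0 : ℝ)..r, ∑ t ∈ S, c t * (exp (-(l * s)) * uu T Φ x (s + t)) = ∫ s in (0 : ℝ)..r, (0 : ℂ) := by
        refine intervalIntegral.integral_congr fun s hs => ?_
        rw [uIcc_of_le hr] at hs
        have h1 := hrel (T s x)
        calc ∑ t ∈ S, c t * (exp (-(l * s)) * uu T Φ x (s + t)) = exp (-(l * s)) * ∑ t ∈ S, c t * Φ (T t (T s x)) := by
              rw [Finset.mul_sum]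
              refine Finset.sum_congr rfl fun t ht => ?_
              have : uu T Φ x (s + t) = Φ (T t (T s x)) := by
                unfold uu
                rw [max_eq_left (by linarith [hS t ht, hs.1]), add_comm, hadd t s (hS t ht) hs.1]
              rw [this]; ring
          _ = 0 := by rw [h1, mul_zero]
      rw [this]; simp
    · intro t _
      refine hint _ ?_ _ _
      have : Continuous fun s : ℝ => uu T Φ x (s + t) := hu.comp (by fun_prop)
      exact continuous_const.mul ((by fun_prop : Continuous fun s : ℝ => exp (-(l * (s : ℂ)))).mul this)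
  unfold hh
  have e6 : ∑ t ∈ S, c t * (exp (l * r) * ((∫ s in (0 : ℝ)..t, ker t l s * uu T Φ x s) +
        (∫ s in (0 : ℝ)..r, exp (-(l * s)) * uu T Φ x (s + t)) -
        exp (l * t) * ∫ s in (0 : ℝ)..r, exp (-(l * s)) * uu T Φ x s)) =
      exp (l * r) * ((∑ t ∈ S, c t * ∫ s in (0 : ℝ)..t, ker t l s * uu T Φ x s) +
        (∑ t ∈ S, c t * ∫ s in (0 : ℝ)..r, exp (-(l * s)) * uu T Φ x (s + t)) -
        (∑ t ∈ S, c t * exp (l * t)) * ∫ s in (0 : ℝ)..r, exp (-(l * s)) * uu T Φ x s) := by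
    rw [Finset.sum_mul, ← Finset.sum_add_distrib, ← Finset.sum_sub_distrib, Finset.mul_sum]
    refine Finset.sum_congr rfl fun t _ => ?_
    ring
  rw [e6, hz, add_zero]

/-- bound on the left half plane and on strips -/
theorem GG_bound (hS : ∀ t ∈ S, 0 ≤ t) (A : ℝ) : ∃ C : ℝ, 0 ≤ C ∧ ∀ l : ℂ, l.re ≤ A → ‖GG T Φ hc S c l‖ ≤ C := by
  have : ∀ t ∈ S, ∃ C : ℝ, 0 ≤ C ∧ ∀ l : ℂ, l.re ≤ A → ‖c t • BB T Φ hc t (ker t l)‖ ≤ C := by
    intro t ht
    obtain ⟨M, hM0, hM⟩ := exists_bound T Φ hc t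
    have ht0 := hS t ht
    refine ⟨‖c t‖ * (Real.exp (|A| * t) * M * t), by positivity, fun l hl => ?_⟩
    rw [norm_smul]
    refine mul_le_mul_of_nonneg_left ?_ (norm_nonneg _)
    refine BB_norm_le T Φ hc t ht0 M hM0 hM _ _ (Real.exp_pos _).le fun s hs => ?_
    simp only [ker, ContinuousMap.coe_mk]
    rw [norm_exp]
    apply Real.exp_le_exp.2
    rw [mul_comm, re_ofReal_mul, mul_comm]
    have h1 : 0 ≤ t - s := by linarith [hs.2]
    have h2 : t - s ≤ t := by linarith [hs.1]
    have h3 : l.re ≤ |A| := hl.trans (le_abs_self A)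
    calc l.re * (t - s) ≤ |A| * (t - s) := by gcongr
      _ ≤ |A| * t := by gcongr
  choose! C hC0 hC using this
  refine ⟨∑ t ∈ S, C t, Finset.sum_nonneg hC0, fun l hl => ?_⟩
  unfold GG
  exact (norm_sum_le _ _).trans (Finset.sum_le_sum fun t ht => hC t ht l hl)

theorem int_exp (σ t : ℝ) (hσ : 0 < σ) : ∫ s in (0 : ℝ)..t, Real.exp (σ * (t - s)) ≤ Real.exp (σ * t) / σ := by
  have hder : ∀ s ∈ uIcc (0 : ℝ) t, HasDerivAt (fun s => -(Real.exp (σ * (t - s)) / σ)) (Real.exp (σ * (t - s))) s := by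
    intro s _
    have h1 : HasDerivAt (fun s => σ * (t - s)) (σ * (-1)) s := ((hasDerivAt_id s).const_sub t).const_mul σ
    refine ((h1.exp.div_const σ).neg).congr_deriv ?_
    field_simp
  rw [intervalIntegral.integral_eq_sub_of_hasDerivAt hder]
  · have : 0 < Real.exp (σ * (t - t)) / σ := by positivity
    rw [sub_zero]
    linarith
  · exact (by fun_prop : Continuous fun s => Real.exp (σ * (t - s))).intervalIntegrable _ _

/-- bound on the right half plane -/
theorem GG_bound_right (hS : ∀ t ∈ S, 0 ≤ t) (tm : ℝ) (htm : ∀ t ∈ S, t ≤ tm) :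
    ∃ C : ℝ, 0 ≤ C ∧ ∀ l : ℂ, 0 < l.re → ‖GG T Φ hc S c l‖ ≤ C * (Real.exp (l.re * tm) / l.re) := by
  have : ∀ t ∈ S, ∃ C : ℝ, 0 ≤ C ∧ ∀ l : ℂ, 0 < l.re → ‖c t • BB T Φ hc t (ker t l)‖ ≤ C * (Real.exp (l.re * tm) / l.re) := by
    intro t ht
    obtain ⟨M, hM0, hM⟩ := exists_bound T Φ hc t
    have ht0 := hS t ht
    refine ⟨‖c t‖ * M, by positivity, fun l hl => ?_⟩
    rw [norm_smul, mul_assoc]
    refine mul_le_mul_of_nonneg_left ?_ (norm_nonneg _)
    refine ContinuousLinearMap.opNorm_le_bound _ (by positivity) fun x => ?_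
    rw [BB_apply T Φ hc t ht0]
    have h1 := intervalIntegral.norm_integral_le_of_norm_le (a := 0) (b := t) (f := fun s => ker t l s * uu T Φ x s)
      (g := fun s => Real.exp (l.re * (t - s)) * (M * ‖x‖)) (μ := volume) ht0 (Eventually.of_forall fun s hs => by
        rw [norm_mul]
        have h2 : ‖ker t l s‖ = Real.exp (l.re * (t - s)) := by
          simp only [ker, ContinuousMap.coe_mk]
          rw [norm_exp, mul_comm, re_ofReal_mul, mul_comm]
        rw [h2]
        have := hM s ⟨hs.1.le, hs.2⟩ x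
        gcongr)
      ((by fun_prop : Continuous fun s => Real.exp (l.re * (t - s)) * (M * ‖x‖)).intervalIntegrable _ _)
    refine h1.trans ?_
    rw [intervalIntegral.integral_mul_const]
    have h2 := int_exp l.re t hl
    have h3 : Real.exp (l.re * t) / l.re ≤ Real.exp (l.re * tm) / l.re := by
      have := htm t ht
      gcongr
    calc _ ≤ (Real.exp (l.re * tm) / l.re) * (M * ‖x‖) := by
          have : 0 ≤ M * ‖x‖ := by positivity
          gcongr
          exact h2.trans h3
      _ = _ := by ring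
  choose! C hC0 hC using this
  refine ⟨∑ t ∈ S, C t, Finset.sum_nonneg hC0, fun l hl => ?_⟩
  unfold GG
  refine (norm_sum_le _ _).trans ?_
  rw [Finset.sum_mul]
  exact Finset.sum_le_sum fun t ht => hC t ht l hl

end

end Pool.Agent.H8.Hyp
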